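import Pool.Agent.H337_cpwl.Asm

/-!
Convex decompositions of CPWL functions: negative answer to Q1.

Definitions are in `Pool.Agent.H337_cpwl.Defs`.

Proof. Level gadget: `t` disjoint cells (hosts) in the space of pairs of hosts, two different hosts
being separated by exactly one coordinate; they are cells of a complex of size `2 ^ O(t ^ 2)` in
which only `O(t ^ 3)` cells carry a nonzero value. The function is the `N`-fold tower of the
gadget, so it has `2 ^ O(N log t + t ^ 2)` pieces in dimension `N t ^ 2`. Lower bound: if
`H = g + h` is the maximum of `m` affine functions then `m ≥ 2 ^ ((t - 1) N)`, by an adversary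
argument over subcubes: when opposite faces of a large box share a touching affine function in
every coordinate direction, then all these functions coincide and `H` is affine in the middle of
the box.
-/

namespace Pool.Agent.Results.MP_8e96ff_co.NoPolynomialDecomposition

open Pool.Agent.H337_cpwl

/-- For every polynomial `p` in two variables there are `n, q ≥ 1` and a CPWL function `f` on `ℝⁿ`
with exactly `q` pieces such that for all convex CPWL functions `g`, `h` with `f = g - h`, and all
complete polyhedral complexes `P`, `Q` compatible with `g` and `h`, one of `P`, `Q` has more than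
`p(n, q)` maximal cells. -/
theorem result (p : MvPolynomial (Fin 2) ℝ) :
    ∃ n q : ℕ, 1 ≤ n ∧ 1 ≤ q ∧ ∃ f : (Fin n → ℝ) → ℝ, IsCPWL f ∧ HasPieces f q ∧
      ∀ g h : (Fin n → ℝ) → ℝ, IsCPWL g → IsCPWL h → ConvexOn ℝ Set.univ g →
        ConvexOn ℝ Set.univ h → (∀ x, f x = g x - h x) →
        ∀ P Q : CompleteComplex n, P.Compatible g → Q.Compatible h →
          MvPolynomial.eval ![(n : ℝ), (q : ℝ)] p < P.numMax ∨
            MvPolynomial.eval ![(n : ℝ), (q : ℝ)] p < Q.numMax :=
  main p

end Pool.Agent.Results.MP_8e96ff_co.NoPolynomialDecomposition
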